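import Pool.Agent.H429R5.GS.J
import Pool.Agent.H429R4.MG.F7

/-!
# High moments of the zeta function over the failures of Gram's law

For a complex number `ω` of modulus one the `ω`-Gram points are the real `g` at which the factor
`X(s)` of the functional equation `ζ(s) = X(s) ζ(1 - s)` satisfies `X(1/2 + i g) = ω ^ 2`; there
`conj ω * ζ(1/2 + i g)` is real (`ω = 1`: the classical Gram points).  We prove an unconditional
lower bound for the sum of `|ζ|^k`, `k ≥ 5`, over those Gram points at which this real number is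
negative: its order differs from the conjectured order of the `k`-th moment only by a power of
`log T` whose exponent is linear in `k`.
-/

open Complex Filter

namespace Pool.Agent.Results.MP_80d0cf_nt.GramLawFailures

/-- The real number `g` is an `ω`-Gram point: with `Γ_ℝ(s) = π ^ (-s/2) Γ(s/2)`, the factor
`X(s) = Γ_ℝ(1 - s) / Γ_ℝ(s)` of the functional equation takes the value `ω ^ 2` at `1/2 + i g`. -/
def GramPoint (ω : ℂ) (g : ℝ) : Prop :=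
  Gammaℝ (1 / 2 - g * I) = ω ^ 2 * Gammaℝ (1 / 2 + g * I)

/-- the `ω`-Gram points in `[0, T]` at which `conj ω * ζ` is negative (Gram's law fails) -/
def badGramPoints (ω : ℂ) (T : ℝ) : Set ℝ :=
  {g | 0 ≤ g ∧ g ≤ T ∧ GramPoint ω g ∧
    ((starRingEnd ℂ) ω * riemannZeta (1 / 2 + g * I)).re < 0}

theorem gram_iff {ω : ℂ} {g : ℝ} :
    GramPoint ω g ↔ H429.MG.X1 ⟨1 / 2, g⟩ = ω ^ 2 := by
  have h1 : (⟨1 / 2, g⟩ : ℂ) = 1 / 2 + g * I := by
    apply Complex.ext <;> simp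
  have h2 : (1 : ℂ) - (1 / 2 + g * I) = 1 / 2 - g * I := by ring
  have heven : (1 : DirichletCharacter ℂ 1).Even := by
    unfold DirichletCharacter.Even
    exact MulChar.one_apply (isUnit_of_subsingleton _)
  have haa : H370.DL.aa (1 : DirichletCharacter ℂ 1) = 0 := by
    unfold H370.DL.aa
    rw [if_pos heven]
  unfold GramPoint H429.MG.X1 H370.DL.XX
  rw [h1, h2, haa, add_zero, add_zero, DirichletCharacter.rootNumber_modOne]
  have hne : Gammaℝ (1 / 2 + g * I) ≠ 0 := by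
    apply Gammaℝ_ne_zero_of_re_pos
    simp
  rw [div_eq_iff hne]
  simp

theorem LL_eq (y : ℝ) : H429.MG.LL ⟨1 / 2, y⟩ = riemannZeta (1 / 2 + y * I) := by
  have h1 : (⟨1 / 2, y⟩ : ℂ) = 1 / 2 + y * I := by
    apply Complex.ext <;> simp
  unfold H429.MG.LL
  rw [DirichletCharacter.LFunction_modOne_eq, h1]

theorem V_eq (y : ℝ) : H429.MG.V y = ‖riemannZeta (1 / 2 + y * I)‖ := by
  unfold H429.MG.V
  rw [LL_eq]

theorem finite_bad {ω : ℂ} (hω : ‖ω‖ = 1) (T : ℝ) : (badGramPoints ω T).Finite := by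
  refine (H429.MG.finite_gram hω 0 T).subset ?_
  rintro g ⟨h0, h1, h2, -⟩
  exact ⟨h0, h1, gram_iff.mp h2⟩

theorem part_a {ω : ℂ} (hω : ‖ω‖ = 1) {k : ℕ} (hk : 0 < k) : ∃ C : ℝ, 0 < C ∧ ∃ K Y1 : ℝ,
    2 ≤ Y1 ∧ ∀ T : ℝ, Y1 ≤ T →
    ∫ t in (0 : ℝ)..T, ‖riemannZeta (1 / 2 + t * I)‖ ^ k ≤
      K + C * (Real.log T ^ (k : ℝ) * T + Real.log T ^ ((k : ℝ) - 1) *
        ∑ᶠ g ∈ badGramPoints ω (2 * T), ‖riemannZeta (1 / 2 + g * I)‖ ^ k) := by
  have hk1 : (1 : ℝ) ≤ (k : ℝ) := by exact_mod_cast hk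
  obtain ⟨C, hC, Y1, hY1, h⟩ := H429.GS.upper_int3 (p := (k : ℝ)) hk1 hω
  have hcont := H429.MG.continuous_Vp (p := (k : ℝ)) (by linarith)
  refine ⟨C * (4 ^ (k : ℝ) + 4 ^ ((k : ℝ) - 1)), by positivity,
    ∫ t in (0 : ℝ)..Y1, H429.MG.V t ^ (k : ℝ), Y1, by linarith, ?_⟩
  intro T hT
  have hT0 : 0 ≤ T := by linarith
  have h1 := h T hT (finite_bad hω (2 * T)).toFinset (by
    intro g hg
    rw [Set.Finite.mem_toFinset] at hg
    exact gram_iff.mp hg.2.2.1) (by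
    intro g h0 h1 h2 h3
    rw [Set.Finite.mem_toFinset]
    refine ⟨h0, h1, gram_iff.mpr h2, ?_⟩
    rw [← LL_eq]
    exact h3)
  have hsplit : ∫ t in (0 : ℝ)..T, H429.MG.V t ^ (k : ℝ) =
      (∫ t in (0 : ℝ)..Y1, H429.MG.V t ^ (k : ℝ)) + ∫ t in Y1..T, H429.MG.V t ^ (k : ℝ) :=
    (intervalIntegral.integral_add_adjacent_intervals (hcont.intervalIntegrable _ _)
      (hcont.intervalIntegrable _ _)).symm
  have hV : ∫ t in (0 : ℝ)..T, ‖riemannZeta (1 / 2 + t * I)‖ ^ k =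
      ∫ t in (0 : ℝ)..T, H429.MG.V t ^ (k : ℝ) := by
    simp only [V_eq, Real.rpow_natCast (‖riemannZeta _‖) k]
  have hsum : ∑ g ∈ (finite_bad hω (2 * T)).toFinset, H429.MG.V g ^ (k : ℝ) =
      ∑ᶠ g ∈ badGramPoints ω (2 * T), ‖riemannZeta (1 / 2 + g * I)‖ ^ k := by
    rw [finsum_mem_eq_finite_toFinset_sum _ (finite_bad hω (2 * T))]
    simp only [V_eq, Real.rpow_natCast (‖riemannZeta _‖) k]
  rw [hsum] at h1
  rw [hV, hsplit]
  set Sg : ℝ := ∑ᶠ g ∈ badGramPoints ω (2 * T), ‖riemannZeta (1 / 2 + g * I)‖ ^ k with hSg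
  have hSg0 : 0 ≤ Sg := by
    rw [← hsum]
    exact Finset.sum_nonneg fun g _ => Real.rpow_nonneg (H429.MG.V_nonneg g) _
  have hll := H429.MG.ll_le_log (show (2 : ℝ) ≤ T by linarith)
  have hll1 := H429.MG.one_le_ll hT0
  have hlog0 : 0 ≤ Real.log T := Real.log_nonneg (by linarith)
  have e1 : H429.MG.ll T ^ (k : ℝ) ≤ 4 ^ (k : ℝ) * Real.log T ^ (k : ℝ) := by
    rw [← Real.mul_rpow (by norm_num) hlog0]
    exact Real.rpow_le_rpow (by linarith) hll (by positivity)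
  have e2 : H429.MG.ll T ^ ((k : ℝ) - 1) ≤ 4 ^ ((k : ℝ) - 1) * Real.log T ^ ((k : ℝ) - 1) := by
    rw [← Real.mul_rpow (by norm_num) hlog0]
    exact Real.rpow_le_rpow (by linarith) hll (by linarith)
  set A : ℝ := Real.log T ^ (k : ℝ) with hA
  set B : ℝ := Real.log T ^ ((k : ℝ) - 1) with hB
  have hA0 : 0 ≤ A := Real.rpow_nonneg hlog0 _
  have hB0 : 0 ≤ B := Real.rpow_nonneg hlog0 _
  have h4a : (0 : ℝ) < 4 ^ (k : ℝ) := by positivity
  have h4b : (0 : ℝ) < 4 ^ ((k : ℝ) - 1) := by positivity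
  have e3 : H429.MG.ll T ^ (k : ℝ) * T ≤ 4 ^ (k : ℝ) * A * T :=
    mul_le_mul_of_nonneg_right e1 hT0
  have e4 : H429.MG.ll T ^ ((k : ℝ) - 1) * Sg ≤ 4 ^ ((k : ℝ) - 1) * B * Sg :=
    mul_le_mul_of_nonneg_right e2 hSg0
  have e5 : C * (H429.MG.ll T ^ (k : ℝ) * T + H429.MG.ll T ^ ((k : ℝ) - 1) * Sg) ≤
      C * (4 ^ (k : ℝ) * A * T + 4 ^ ((k : ℝ) - 1) * B * Sg) :=
    mul_le_mul_of_nonneg_left (add_le_add e3 e4) hC.le
  have e6 : 0 ≤ C * (4 ^ ((k : ℝ) - 1) * (A * T)) := by positivity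
  have e7 : 0 ≤ C * (4 ^ (k : ℝ) * (B * Sg)) := by positivity
  have e8 : C * (4 ^ (k : ℝ) + 4 ^ ((k : ℝ) - 1)) * (A * T + B * Sg) =
      C * (4 ^ (k : ℝ) * A * T + 4 ^ ((k : ℝ) - 1) * B * Sg) +
      C * (4 ^ ((k : ℝ) - 1) * (A * T)) + C * (4 ^ (k : ℝ) * (B * Sg)) := by ring
  rw [e8]
  linarith

theorem result (ω : ℂ) (hω : ‖ω‖ = 1) (k : ℕ) (hk : 5 ≤ k) :
    (∀ T : ℝ, (badGramPoints ω T).Finite) ∧
    ∃ c : ℝ, 0 < c ∧ ∀ᶠ T : ℝ in atTop,
      c * (T * Real.log T ^ (((k : ℝ) / 2 - 1) ^ 2)) ≤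
        ∑ᶠ g ∈ badGramPoints ω T, ‖riemannZeta (1 / 2 + g * I)‖ ^ k := by
  refine ⟨finite_bad hω, ?_⟩
  obtain ⟨c0, hc0, hlow⟩ := H429.MG.moment_lower k (by omega)
  obtain ⟨C, hC, K, Y1, hY1, hup⟩ := part_a hω (k := k) (by omega)
  have hk5 : (5 : ℝ) ≤ k := by exact_mod_cast hk
  set E : ℝ := ((k : ℝ) / 2 - 1) ^ 2 with hE
  have hE0 : 0 ≤ E := sq_nonneg _
  have hD0 : 0 < (k : ℝ) ^ 2 / 4 - k := by nlinarith
  refine ⟨c0 / (4 * C * 2 ^ E), by positivity, ?_⟩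
  have hhalf : Tendsto (fun T : ℝ => T / 2) atTop atTop :=
    tendsto_id.atTop_div_const (by norm_num)
  have hlogt : Tendsto (fun T : ℝ => Real.log (T / 2)) atTop atTop :=
    Real.tendsto_log_atTop.comp hhalf
  have hpow : Tendsto (fun T : ℝ => Real.log (T / 2) ^ ((k : ℝ) ^ 2 / 4 - k)) atTop atTop :=
    (tendsto_rpow_atTop hD0).comp hlogt
  filter_upwards [hhalf.eventually hlow, eventually_ge_atTop (4 : ℝ),
    hpow.eventually (eventually_ge_atTop (4 * C / c0)),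
    hlogt.eventually (eventually_ge_atTop (1 : ℝ)),
    hhalf.eventually (eventually_ge_atTop Y1),
    hhalf.eventually (eventually_ge_atTop (4 * K / c0))] with T h1 hT4 h2 h3 hTY hTK
  set U : ℝ := T / 2 with hU
  set L : ℝ := Real.log U with hL
  have hU2 : 2 ≤ U := by rw [hU]; linarith
  have hTU : 2 * U = T := by rw [hU]; ring
  have hL0 : 0 < L := by linarith
  have hU0 : 0 < U := by linarith
  have h4 := hup U hTY
  rw [hTU] at h4
  set Sg : ℝ := ∑ᶠ g ∈ badGramPoints ω T, ‖riemannZeta (1 / 2 + g * I)‖ ^ k with hSg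
  have h5 : c0 * (U * L ^ ((k : ℝ) ^ 2 / 4)) ≤
      K + C * (L ^ (k : ℝ) * U + L ^ ((k : ℝ) - 1) * Sg) := h1.trans h4
  have hK : K ≤ c0 / 4 * (U * L ^ ((k : ℝ) ^ 2 / 4)) := by
    have e1 : 1 ≤ L ^ ((k : ℝ) ^ 2 / 4) := Real.one_le_rpow h3 (by positivity)
    have e2 : K ≤ c0 / 4 * U := by
      rw [div_le_iff₀ hc0] at hTK
      linarith
    have e3 : U ≤ U * L ^ ((k : ℝ) ^ 2 / 4) := by nlinarith
    have e4 : c0 / 4 * U ≤ c0 / 4 * (U * L ^ ((k : ℝ) ^ 2 / 4)) :=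
      mul_le_mul_of_nonneg_left e3 (by positivity)
    linarith
  -- the term with `L ^ k` is at most a quarter of the left side
  have h6 : C * (L ^ (k : ℝ) * U) ≤ c0 / 4 * (U * L ^ ((k : ℝ) ^ 2 / 4)) := by
    have e1 : L ^ ((k : ℝ) ^ 2 / 4) = L ^ (k : ℝ) * L ^ ((k : ℝ) ^ 2 / 4 - k) := by
      rw [← Real.rpow_add hL0]
      congr 1
      ring
    rw [e1]
    have e2 : C ≤ c0 / 4 * L ^ ((k : ℝ) ^ 2 / 4 - k) := by
      calc C = c0 / 4 * (4 * C / c0) := by field_simp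
        _ ≤ _ := by gcongr
    have e3 : 0 ≤ L ^ (k : ℝ) * U := by positivity
    calc C * (L ^ (k : ℝ) * U) ≤
        (c0 / 4 * L ^ ((k : ℝ) ^ 2 / 4 - k)) * (L ^ (k : ℝ) * U) :=
          mul_le_mul_of_nonneg_right e2 e3
      _ = _ := by ring
  have h7 : c0 / 2 * (U * L ^ ((k : ℝ) ^ 2 / 4)) ≤ C * (L ^ ((k : ℝ) - 1) * Sg) := by
    linarith
  have e4 : L ^ ((k : ℝ) ^ 2 / 4) = L ^ ((k : ℝ) - 1) * L ^ E := by
    rw [← Real.rpow_add hL0, hE]
    congr 1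
    ring
  rw [e4] at h7
  have hLp : 0 < L ^ ((k : ℝ) - 1) := Real.rpow_pos_of_pos hL0 _
  have h8 : c0 / 2 * (U * L ^ E) ≤ C * Sg := by
    have : L ^ ((k : ℝ) - 1) * (c0 / 2 * (U * L ^ E)) ≤ L ^ ((k : ℝ) - 1) * (C * Sg) := by
      linarith
    exact le_of_mul_le_mul_left this hLp
  have h9 : Real.log T ^ E ≤ 2 ^ E * L ^ E := by
    rw [← Real.mul_rpow (by norm_num) hL0.le]
    apply Real.rpow_le_rpow (Real.log_nonneg (by linarith)) _ hE0
    rw [← hTU, Real.log_mul (by norm_num) (by linarith)]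
    have : Real.log 2 ≤ 1 := by
      have := Real.log_le_sub_one_of_pos (by norm_num : (0 : ℝ) < 2)
      linarith
    linarith
  have h2E : (0 : ℝ) < 2 ^ E := by positivity
  calc c0 / (4 * C * 2 ^ E) * (T * Real.log T ^ E)
      ≤ c0 / (4 * C * 2 ^ E) * (T * (2 ^ E * L ^ E)) := by
        have : 0 ≤ T := by linarith
        gcongr
    _ = (c0 / 2 * (U * L ^ E)) / C := by
        rw [← hTU]
        field_simp
        ring
    _ ≤ (C * Sg) / C := by gcongr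
    _ = Sg := by field_simp

end Pool.Agent.Results.MP_80d0cf_nt.GramLawFailures
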