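import Pool.Agent.H295R2.LM.Nat
import Pool.Agent.H306R2.EvenConst
import Pool.Agent.H379R2.Const6Main

set_option autoImplicit false

/-!
Explicit unconditional lower bounds for the `2k`-th moment of zeta on the critical line in all
intervals `[T, T + U]`, `U ≥ (log T) ^ A`, for every integer `k ≥ 6`.
-/

open Filter

theorem Pool.Agent.Results.MP_80d0cf_nt.ShortIntervalsAllK.result (k : ℕ) (hk : 6 ≤ k) :
    ∃ A : ℝ, 0 < A ∧ ∀ᶠ T : ℝ in atTop, ∀ U : ℝ, Real.log T ^ A ≤ U →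
      (21 / 20) ^ (k ^ 2) *
        ((∏' p : Nat.Primes, ((1 - 1 / (p : ℝ)) ^ (k ^ 2) *
          ∑' m : ℕ, ((m + k - 1).choose m : ℝ) ^ 2 * (1 / (p : ℝ)) ^ m)) /
            ((k ^ 2).factorial : ℝ)) * Real.log U ^ (k ^ 2) ≤
      1 / U * ∫ t in T..(T + U), ‖riemannZeta (1 / 2 + t * Complex.I)‖ ^ (2 * k) := by
  obtain ⟨n, j, q, β, hA, hm⟩ := Pool.Agent.H379R2.Const6.const6 k hk
  have hk0 : (0 : ℝ) < k := by exact_mod_cast (by omega : 0 < k)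
  have e1 : (((2 * k : ℕ) : ℝ)) / 2 = k := by push_cast; ring
  have haF : 0 < Pool.Agent.H306R2.aF (((2 * k : ℕ) : ℝ) / 2) :=
    Pool.Agent.H306R2.aF_pos (by rw [e1]; exact hk0)
  obtain ⟨A, hA0, h⟩ := H295LM.masterXnat (2 * k) j (by omega) q β hA
    (Pool.Agent.H306R2.aF (((2 * k : ℕ) : ℝ) / 2) *
      ((21 / 20) ^ (k ^ 2) / ((k ^ 2).factorial : ℝ)))
    (mul_lt_mul_of_pos_left hm haF)
  have e2 : (((2 * k : ℕ) : ℝ)) ^ 2 / 4 = ((k ^ 2 : ℕ) : ℝ) := by push_cast; ring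
  rw [e1, e2, Pool.Agent.H306R2.aF_nat k (by omega)] at h
  refine ⟨A, hA0, ?_⟩
  filter_upwards [h, Real.tendsto_log_atTop.eventually_gt_atTop 0] with T hT hT0 U hU
  have hU0 : 0 < U := lt_of_lt_of_le (Real.rpow_pos_of_pos hT0 _) hU
  have h1 := hT U hU
  rw [Real.rpow_natCast] at h1
  rw [one_div U, ← div_eq_inv_mul, le_div_iff₀ hU0]
  refine le_trans (le_of_eq ?_) h1
  ring
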