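import Pool.Agent.H601R2.EighthLocal

set_option autoImplicit false

/-!
Unconditional lower bounds for the sixth and eighth moments of zeta, in the closed form of the
conjectured constants, on `[αT, T]` for every `0 ≤ α < 1`.
-/

open Filter

/-- Both constants of Q2 from below: for every `0 ≤ α < 1` and all large `T` the mean of
`|ζ(1/2+it)|^6` over `[αT, T]` is at least `34.4/42` times, and the mean of `|ζ(1/2+it)|^8` at least
`779/24024` times, the conjectured size. -/
theorem Pool.Agent.Results.MP_80d0cf_nt.SixthAndEighth.result (α : ℝ) (hα0 : 0 ≤ α) (hα1 : α < 1) :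
    (∀ᶠ T : ℝ in atTop,
      34.4 / 42 * (42 / (Nat.factorial 9 : ℝ) * (∏' p : Nat.Primes, ((1 - 1 / (p : ℝ)) ^ 4 *
          (1 + 4 / (p : ℝ) + 1 / (p : ℝ) ^ 2))) * Real.log T ^ 9) ≤
      1 / ((1 - α) * T) * ∫ t in (α * T)..T, ‖riemannZeta (1 / 2 + t * Complex.I)‖ ^ 6) ∧
    (∀ᶠ T : ℝ in atTop,
      779 / 24024 * (24024 / (Nat.factorial 16 : ℝ) * (∏' p : Nat.Primes, ((1 - 1 / (p : ℝ)) ^ 9 *
          (1 + 9 / (p : ℝ) + 9 / (p : ℝ) ^ 2 + 1 / (p : ℝ) ^ 3))) * Real.log T ^ 16) ≤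
      1 / ((1 - α) * T) * ∫ t in (α * T)..T, ‖riemannZeta (1 / 2 + t * Complex.I)‖ ^ 8) := by
  constructor
  · filter_upwards [Pool.Agent.H601R2.EighthLocal.sixth_frac α hα0 hα1, eventually_gt_atTop 0]
      with T hT hT0
    rw [Pool.Agent.H601R2.SixthLocal.aF3_closed] at hT
    have hδT : 0 < (1 - α) * T := mul_pos (by linarith) hT0
    rw [one_div ((1 - α) * T), ← div_eq_inv_mul, le_div_iff₀ hδT]
    refine le_trans (le_of_eq ?_) hT
    ring
  · filter_upwards [Pool.Agent.H601R2.EighthLocal.eighth_frac α hα0 hα1, eventually_gt_atTop 0]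
      with T hT hT0
    rw [Pool.Agent.H601R2.EighthLocal.aF4_closed] at hT
    have hδT : 0 < (1 - α) * T := mul_pos (by linarith) hT0
    rw [one_div ((1 - α) * T), ← div_eq_inv_mul, le_div_iff₀ hδT]
    refine le_trans (le_of_eq ?_) hT
    ring
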